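import Pool.Agent.MP_3ee8cb_gt.DNFL.RGRAD
import Pool.Agent.MP_3ee8cb_gt.DNTR.Ode

/-! The Hessian of half the squared distance, compared with the hyperbolic one. -/

namespace Pool.Agent.MP_3ee8cb_gt.PXH

open DN Set
open DNFL.RGRAD
open scoped RealInnerProductSpace

variable [Dim]

noncomputable section

variable {m : MF} {lg : V × V → V}

/-- The variation of the segment from `z` to `y` when `z` moves with velocity `e`. -/
def ze (m : MF) (lg : V × V → V) (z y e : V) : V × V :=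
  (m.R z e, fderiv ℝ lg (z, y) (m.R z e, 0))

/-- Minus the covariant derivative of `lg (·, y)`. -/
def H (m : MF) (lg : V × V → V) (z y e : V) : V := -m.ver (z, lg (z, y)) (ze m lg z y e)

theorem H_eq (z y e : V) : H m lg z y e =
    -(fderiv ℝ lg (z, y) (m.R z e, 0) + m.om z (m.R z e) (lg (z, y))) := rfl

theorem H_add (z y e f : V) : H m lg z y (e + f) = H m lg z y e + H m lg z y f := by
  have : (m.R z (e + f), (0 : V)) = (m.R z e, 0) + (m.R z f, 0) := by simp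
  rw [H_eq, H_eq, H_eq, this, map_add, map_add, map_add, add_apply]
  abel

theorem H_smul (z y : V) (r : ℝ) (e : V) : H m lg z y (r • e) = r • H m lg z y e := by
  have : (m.R z (r • e), (0 : V)) = r • (m.R z e, 0) := by simp
  rw [H_eq, H_eq, this, map_smul, map_smul, map_smul, smul_apply, smul_neg, smul_add]

theorem hor_ze (o : m.OK) (z y e b : V) : m.hor (z, b) (ze m lg z y e) = e := o.SR z e

theorem j0 (o : m.OK) (z y e : V) : m.J (z, lg (z, y)) (ze m lg z y e) 0 = e := by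
  rw [J0 o, hor_ze o]

theorem j0' (o : m.OK) (z y e : V) :
    m.J' (z, lg (z, y)) (ze m lg z y e) 0 = -H m lg z y e := by
  rw [J0' o, H, neg_neg]

theorem j1 (o : m.OK) (l : m.Had lg) (z y e : V) :
    m.J (z, lg (z, y)) (ze m lg z y e) 1 = 0 := by
  have hl : HasFDerivAt lg (fderiv ℝ lg (z, y)) (z, y) :=
    (l.c1.differentiable one_ne_zero _).hasFDerivAt
  have hZ : HasFDerivAt (m.Z 1) (fderiv ℝ (m.Z 1) (z, lg (z, y))) (z, lg (z, y)) :=
    ((o.cZ.comp (contDiff_const.prodMk contDiff_id)).differentiable one_ne_zero _).hasFDerivAt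
  have h1 := (hZ.comp (z, y) (hasFDerivAt_fst.prodMk hl)).fst
  have h2 : (fun x : V × V => ((m.Z 1 ∘ fun x : V × V => (x.1, lg x)) x).1) = Prod.snd :=
    funext fun x => l.ex x.1 x.2
  rw [h2] at h1
  have h3 : (fderiv ℝ (m.Z 1) (z, lg (z, y)) (ze m lg z y e)).1 = 0 :=
    congrArg (fun T : V × V →L[ℝ] V => T (m.R z e, 0)) (h1.unique hasFDerivAt_snd)
  change m.S _ (fderiv ℝ (m.Z 1) (z, lg (z, y)) (ze m lg z y e)).1 = 0
  rw [h3, map_zero]

theorem sym (o : m.OK) (j : m.Jac) (l : m.Had lg) (z y e f : V) :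
    ⟪H m lg z y e, f⟫ = ⟪e, H m lg z y f⟫ := by
  have h := j.symp (z, lg (z, y)) (ze m lg z y e) (ze m lg z y f) 1
  rw [j1 o l, j1 o l, hor_ze o, hor_ze o, inner_zero_left, inner_zero_right] at h
  simp only [H, inner_neg_left, inner_neg_right]
  linarith

theorem rad (o : m.OK) (j : m.Jac) (l : m.Had lg) (z y e : V) :
    ⟪H m lg z y e, lg (z, y)⟫ = ⟪e, lg (z, y)⟫ := by
  have h := nor o j (z, lg (z, y)) (ze m lg z y e) 1
  rw [j1 o l, hor_ze o, inner_zero_left] at h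
  simp only [H, inner_neg_left]
  linarith

theorem H_rad (o : m.OK) (j : m.Jac) (l : m.Had lg) (z y : V) :
    H m lg z y (lg (z, y)) = lg (z, y) :=
  ext_inner_left ℝ fun e => by rw [← sym o j l, rad o j l]

theorem perp (o : m.OK) (j : m.Jac) (l : m.Had lg) {z y e : V} (he : ⟪e, lg (z, y)⟫ = 0) (t : ℝ) :
    ⟪m.J (z, lg (z, y)) (ze m lg z y e) t, (m.Z t (z, lg (z, y))).2⟫ = 0 := by
  have h := rad o j l z y e
  rw [H, inner_neg_left, he, neg_eq_zero] at h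
  rw [nor o j, hor_ze o, h]
  simp [he]

/-- A Jacobi field that vanishes at time one is bounded by its initial value. -/
theorem jac_le (h : m.OK) (hj : m.Jac) (hu : m.Up 1) (z η : V × V) (h1 : m.J z η 1 = 0) {t : ℝ}
    (ht : t ∈ Icc (0 : ℝ) 1) : ‖m.J z η t‖ ≤ ‖m.J z η 0‖ := by
  have d1 : ∀ s, HasDerivAt (fun s => ⟪m.J z η s, m.J z η s⟫)
      (2 * ⟪m.J z η s, m.J' z η s⟫) s := fun s => by
    refine ((hj.d1 z η s).inner ℝ (hj.d1 z η s)).congr_deriv ?_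
    simp only [inner_sub_left, inner_sub_right, w_skew h,
      real_inner_comm (m.J z η s) (m.J' z η s)]
    ring
  have d2 : ∀ s, HasDerivAt (fun s => 2 * ⟪m.J z η s, m.J' z η s⟫)
      (2 * (⟪m.J' z η s, m.J' z η s⟫ -
        ⟪m.K (m.Z s z).1 (m.J z η s) (m.Z s z).2 (m.Z s z).2, m.J z η s⟫)) s := fun s => by
    refine (((hj.d1 z η s).inner ℝ (hj.d2 z η s)).const_mul 2).congr_deriv ?_
    simp only [inner_sub_left, inner_sub_right, inner_neg_right, w_skew h,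
      real_inner_comm (m.K (m.Z s z).1 (m.J z η s) (m.Z s z).2 (m.Z s z).2) (m.J z η s)]
    ring
  have := DNTR.cvx_le d1 d2 (fun s => by
    have a1 := hu (m.Z s z).1 (m.J z η s) (m.Z s z).2
    have a2 : 0 ≤ ⟪m.J' z η s, m.J' z η s⟫ := real_inner_self_nonneg
    have a3 := real_inner_mul_inner_self_le (m.J z η s) (m.Z s z).2
    rw [real_inner_self_eq_norm_sq, real_inner_self_eq_norm_sq] at a3
    nlinarith) real_inner_self_nonneg (by simp [h1]) ht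
  rw [real_inner_self_eq_norm_sq, real_inner_self_eq_norm_sq] at this
  exact (sq_le_sq₀ (norm_nonneg _) (norm_nonneg _)).mp this

/-- The Jacobi operator is within `(hi - 1) |c| ^ 2` of the hyperbolic one. -/
theorem op_le (j : m.Jac) (hu : m.Up 1) {hi : ℝ} (hd : m.Dn hi) (h1 : 1 ≤ hi) (y : V) {a b c : V}
    (ha : ⟪a, c⟫ = 0) (hb : ⟪b, c⟫ = 0) :
    |-⟪m.K y a c c, b⟫ - ‖c‖ ^ 2 * ⟪a, b⟫| ≤ (hi - 1) * ‖c‖ ^ 2 * (‖a‖ * ‖b‖) := by
  obtain ⟨L, hL⟩ := j.lK y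
  have sy : ∀ u v, ⟪L u c c, v⟫ = ⟪L v c c, u⟫ := fun u v => by
    rw [← hL, ← hL, j.pK, j.aK y c v, inner_neg_left, j.sK y v c u c, neg_neg, real_inner_comm]
  have q : ∀ s t : ℝ, 0 ≤ s ^ 2 * (-⟪L a c c, a⟫ - ‖c‖ ^ 2 * ‖a‖ ^ 2) +
      2 * s * t * (-⟪L a c c, b⟫ - ‖c‖ ^ 2 * ⟪a, b⟫) +
        t ^ 2 * (-⟪L b c c, b⟫ - ‖c‖ ^ 2 * ‖b‖ ^ 2) := fun s t => by
    have h := hu y (s • a + t • b) c
    rw [hL, ← real_inner_self_eq_norm_sq (s • a + t • b)] at h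
    simp only [map_add, map_smul, add_apply, smul_apply, inner_add_left, inner_add_right,
      real_inner_smul_left, real_inner_smul_right, ha, hb, real_inner_self_eq_norm_sq, sy b a,
      real_inner_comm a b, norm_smul, mul_pow, Real.norm_eq_abs, sq_abs] at h
    nlinarith
  have qa := hd y a c
  have qb := hd y b c
  rw [hL, ha] at qa
  rw [hL, hb] at qb
  rw [hL]
  set A := -⟪L a c c, a⟫ - ‖c‖ ^ 2 * ‖a‖ ^ 2
  set B := -⟪L a c c, b⟫ - ‖c‖ ^ 2 * ⟪a, b⟫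
  set C := -⟪L b c c, b⟫ - ‖c‖ ^ 2 * ‖b‖ ^ 2
  have hA : A ≤ (hi - 1) * ‖c‖ ^ 2 * ‖a‖ ^ 2 := by simp only [A]; nlinarith
  have hC : C ≤ (hi - 1) * ‖c‖ ^ 2 * ‖b‖ ^ 2 := by simp only [C]; nlinarith
  have A0 : 0 ≤ A := by simpa using q 1 0
  have C0 : 0 ≤ C := by simpa using q 0 1
  have hD : discrim A (2 * B) C ≤ 0 := discrim_le_zero fun s => by
    have := q s 1
    nlinarith
  have k0 : 0 ≤ (hi - 1) * ‖c‖ ^ 2 := mul_nonneg (by linarith) (sq_nonneg _)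
  refine abs_le_of_sq_le_sq ?_ (by positivity)
  have := mul_le_mul hA hC C0 (by positivity)
  rw [discrim] at hD
  nlinarith

/-- `u` solves the model equation and vanishes at time one. -/
structure Mod (d : ℝ) (u v : ℝ → ℝ) : Prop where
  du : ∀ s, HasDerivAt u (v s) s
  dv : ∀ s, HasDerivAt v (d ^ 2 * u s) s
  one : u 1 = 0
  pos : ∀ s ∈ Icc (0 : ℝ) 1, 0 ≤ u s

/-- The upper comparison, in norm. -/
theorem up (o : m.OK) (j : m.Jac) (hu : m.Up 1) {hi : ℝ} (hd : m.Dn hi) (h1 : 1 ≤ hi)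
    (l : m.Had lg) {z y e f : V} (he : ⟪e, lg (z, y)⟫ = 0) (hf : ⟪f, lg (z, y)⟫ = 0)
    {u v : ℝ → ℝ} (M : Mod ‖lg (z, y)‖ u v) :
    |u 0 * ⟪H m lg z y e, f⟫ + v 0 * ⟪e, f⟫| ≤ (hi - 1) * (‖e‖ * ‖f‖) * (v 1 - v 0) := by
  obtain ⟨O, O0, Oz, dO⟩ := j.par (z, lg (z, y))
  set q : V × V := (z, lg (z, y))
  set ζ := ze m lg z y e
  have dG : ∀ s, HasDerivAt (fun s => u s * ⟪m.J' q ζ s, O s f⟫ - v s * ⟪m.J q ζ s, O s f⟫)
      (u s * (-⟪m.K (m.Z s q).1 (m.J q ζ s) (m.Z s q).2 (m.Z s q).2, O s f⟫ -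
        ‖(m.Z s q).2‖ ^ 2 * ⟪m.J q ζ s, O s f⟫)) s := fun s => by
    refine (((M.du s).mul ((j.d2 q ζ s).inner ℝ (dO f s))).sub
      ((M.dv s).mul ((j.d1 q ζ s).inner ℝ (dO f s)))).congr_deriv ?_
    simp only [inner_sub_left, inner_neg_left, inner_neg_right, w_skew o, j.norm, q]
    ring
  have bd : ∀ s ∈ Icc (0 : ℝ) 1,
      |u s * (-⟪m.K (m.Z s q).1 (m.J q ζ s) (m.Z s q).2 (m.Z s q).2, O s f⟫ -
        ‖(m.Z s q).2‖ ^ 2 * ⟪m.J q ζ s, O s f⟫)| ≤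
          (hi - 1) * (‖e‖ * ‖f‖) * (‖lg (z, y)‖ ^ 2 * u s) := fun s hs => by
    have b1 := op_le j hu hd h1 (m.Z s q).1 (perp o j l he s)
      (b := O s f) (by rw [← Oz, LinearIsometryEquiv.inner_map_map]; exact hf)
    have b2 := jac_le o j hu q ζ (j1 o l z y e) hs
    rw [j0 o] at b2
    rw [abs_mul, abs_of_nonneg (M.pos s hs)]
    rw [LinearIsometryEquiv.norm_map] at b1
    have b3 : ‖(m.Z s q).2‖ = ‖lg (z, y)‖ := j.norm s q
    have k0 : 0 ≤ (hi - 1) * ‖(m.Z s q).2‖ ^ 2 := mul_nonneg (by linarith) (sq_nonneg _)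
    have b4 := b1.trans (mul_le_mul_of_nonneg_left
      (mul_le_mul_of_nonneg_right b2 (norm_nonneg f)) k0)
    have := mul_le_mul_of_nonneg_left b4 (M.pos s hs)
    rw [← b3]
    linarith
  have i1 : (1 : ℝ) ∈ Icc (0 : ℝ) 1 := right_mem_Icc.2 zero_le_one
  have e1 := DNTR.le_of_der (c := 0)
    (fun s => (dG s).sub ((M.dv s).const_mul ((hi - 1) * (‖e‖ * ‖f‖))))
    (fun s hs => by linarith [(abs_le.1 (bd s hs)).2]) i1
  have e2 := DNTR.le_of_der (c := 0)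
    (fun s => (dG s).neg.sub ((M.dv s).const_mul ((hi - 1) * (‖e‖ * ‖f‖))))
    (fun s hs => by linarith [(abs_le.1 (bd s hs)).1]) i1
  simp only [Pi.sub_apply, Pi.neg_apply, q, ζ, M.one, j1 o l, j0 o, j0' o, O0, inner_zero_left,
    inner_neg_left] at e1 e2
  exact abs_le.2 ⟨by linarith, by linarith⟩

/-- The lower comparison. -/
theorem low (o : m.OK) (j : m.Jac) (hu : m.Up 1) (l : m.Had lg) {z y e : V}
    (he : ⟪e, lg (z, y)⟫ = 0) {u v : ℝ → ℝ} (M : Mod ‖lg (z, y)‖ u v) :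
    0 ≤ u 0 * (u 0 * ⟪H m lg z y e, e⟫ + v 0 * ‖e‖ ^ 2) := by
  obtain ⟨O, O0, Oz, dO⟩ := j.par (z, lg (z, y))
  set q : V × V := (z, lg (z, y))
  set ζ := ze m lg z y e
  have dF : ∀ s, HasDerivAt (fun s => 2 * u 0 * (v s * ⟪m.J q ζ s, O s e⟫) -
      v s * u s * ‖e‖ ^ 2 - u 0 ^ 2 * ⟪m.J' q ζ s, m.J q ζ s⟫)
      (-‖u 0 • m.J' q ζ s - v s • O s e‖ ^ 2 -
        ‖lg (z, y)‖ ^ 2 * ‖u 0 • m.J q ζ s - u s • O s e‖ ^ 2 +
        u 0 ^ 2 * (‖m.J q ζ s‖ ^ 2 * ‖lg (z, y)‖ ^ 2 +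
          ⟪m.K (m.Z s q).1 (m.J q ζ s) (m.Z s q).2 (m.Z s q).2, m.J q ζ s⟫)) s := fun s => by
    refine (((((M.dv s).mul ((j.d1 q ζ s).inner ℝ (dO e s))).const_mul (2 * u 0)).sub
      (((M.dv s).mul (M.du s)).mul_const (‖e‖ ^ 2))).sub
      (((j.d2 q ζ s).inner ℝ (j.d1 q ζ s)).const_mul (u 0 ^ 2))).congr_deriv ?_
    simp only [inner_sub_left, inner_sub_right, inner_neg_left, inner_neg_right, w_skew o,
      norm_sub_sq_real, real_inner_smul_left, real_inner_smul_right, norm_smul, mul_pow,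
      Real.norm_eq_abs, sq_abs, LinearIsometryEquiv.norm_map, real_inner_self_eq_norm_sq]
    ring
  have e1 := DNTR.le_of_der (c := 0) dF (fun s _ => by
    have a1 := hu (m.Z s q).1 (m.J q ζ s) (m.Z s q).2
    rw [perp o j l he s, j.norm s q] at a1
    have a2 : ‖m.J q ζ s‖ ^ 2 * ‖lg (z, y)‖ ^ 2 +
      ⟪m.K (m.Z s q).1 (m.J q ζ s) (m.Z s q).2 (m.Z s q).2, m.J q ζ s⟫ ≤ 0 := by
      simp only [q] at a1 ⊢
      linarith
    have a3 := mul_nonpos_of_nonneg_of_nonpos (sq_nonneg (u 0)) a2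
    have a4 := mul_nonneg (sq_nonneg ‖lg (z, y)‖) (sq_nonneg ‖u 0 • m.J q ζ s - u s • O s e‖)
    linarith [sq_nonneg ‖u 0 • m.J' q ζ s - v s • O s e‖]) (right_mem_Icc.2 zero_le_one)
  simp only [q, ζ, M.one, j1 o l, j0 o, j0' o, O0, inner_zero_left, inner_zero_right,
    inner_neg_left, real_inner_self_eq_norm_sq] at e1
  linarith

omit [Dim] in
theorem mod_sinh {d : ℝ} (hd : 0 ≤ d) :
    Mod d (fun s => Real.sinh (d * (1 - s))) fun s => -(d * Real.cosh (d * (1 - s))) := by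
  have h : ∀ s : ℝ, HasDerivAt (fun s => d * (1 - s)) (-d) s := fun s => by
    simpa using ((hasDerivAt_id s).const_sub 1).const_mul d
  refine ⟨fun s => (h s).sinh.congr_deriv (by ring),
    fun s => ((h s).cosh.const_mul d).neg.congr_deriv (by ring), by simp, fun s hs => ?_⟩
  exact Real.sinh_nonneg_iff.2 (mul_nonneg hd (sub_nonneg.2 hs.2))

omit [Dim] in
theorem mod_zero : Mod 0 (fun s => 1 - s) fun _ => -1 :=
  ⟨fun s => (hasDerivAt_id s).const_sub 1, fun s => by simpa using hasDerivAt_const s (-1 : ℝ),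
    by simp, fun _ hs => sub_nonneg.2 hs.2⟩

/-- On the diagonal the Hessian is the identity. -/
theorem H_zero (o : m.OK) (j : m.Jac) (hu : m.Up 1) {hi : ℝ} (hd : m.Dn hi) (h1 : 1 ≤ hi)
    (l : m.Had lg) {z y : V} (h0 : lg (z, y) = 0) (e : V) : H m lg z y e = e :=
  ext_inner_right ℝ fun f => by
    have := up o j hu hd h1 l (z := z) (y := y) (e := e) (f := f) (by simp [h0]) (by simp [h0])
      (by rw [h0, norm_zero]; exact mod_zero)
    simp only [sub_self, mul_zero, abs_nonpos_iff] at this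
    linarith

end

end Pool.Agent.MP_3ee8cb_gt.PXH
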